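import Pool.Agent.Y577.UC.Main
import Pool.Agent.Y577.UC.Forced2
import Pool.Agent.Y577.AD.Forced

set_option autoImplicit false

/-!
MP_32ee98_gt: for no uncountable cardinal `κ` does ZFC prove that there is a compact space of weight
`κ` which is `C_p`-universal for weight `κ`.

* `Principle K` says: for every set `R` of finite sequences in `K` there is a graph on `K` such that
  for every map `φ` from `K` to `K`, if `φ` maps all finite cliques into `R`, then there is a set `I`
  containing independent sets of all finite sizes, whose finite subsets are all mapped into `R`.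
* In ZFC, `Principle K` implies that no compact space `W` of weight `|K|` is `C_p`-universal for
  weight `|K|`: the relation `R` codes which finite unions of basic open sets of `W` meet a set of
  `k` points of `W`. Let `X` be the space of all sequences of cliques of the graph `G`. If `T` embeds
  `C_p(X)` in `C_p(W)`, then by the Baire category theorem there are a nonempty open set of points
  `x` of `X` and a number `k` such that `f(x)` is controlled by the values of `T(f)` at `k` points of
  `W` up to `1 / (k + 1)`. Together with the continuity of `T` this contradicts the choice of `G`.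
* Adding more than `|K|` Cohen reals forces `Principle K`; the graph is Cohen generic.
-/

namespace Pool.Agent.Results.MP_32ee98_gt.NoUniversalSpace

open Set Cardinal Topology Pool.Agent.Helper669.Forcing Pool.Agent.Y577.UC.Forced
open Pool.Agent.Y577.UC.Top (Principle Cp WeightLe)

/-- The weight of `X` is `κ`. -/
def HasWeight (X : Type) [TopologicalSpace X] (κ : Cardinal.{0}) : Prop :=
  WeightLe X κ ∧ ∀ μ < κ, ¬ WeightLe X μ

/-- The space `W` has weight `κ`, and for each compact Hausdorff space `X` of weight at most `κ` the
space `C_p(X)` is homeomorphic to a subspace of `C_p(W)`. -/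
def IsUniversal (W : Type) [TopologicalSpace W] (κ : Cardinal.{0}) : Prop :=
  HasWeight W κ ∧ ∀ (X : Type) [TopologicalSpace X] [CompactSpace X] [T2Space X], WeightLe X κ →
    ∃ T : Cp X → Cp W, IsEmbedding T

/-- (1) For every cardinal `|L|` there is a forcing notion which preserves all cardinals and forces
the principle for all uncountable `K` of size at most `|L|`. (2) In ZFC, the principle for an
uncountable set `K` implies that there is no compact Hausdorff space of weight `|K|` which is
`C_p`-universal for weight `|K|`. -/
theorem result :
    (∀ L : Type, ∃ (P : Type) (_ : Preorder P), Nonempty P ∧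
      ∀ p : P, p ∈ CardinalsPreserved.{0, 0} P ∧
        ∀ K : Type, ℵ₀ < #K → #K ≤ #L → p ∈ ForcedPrinciple P K) ∧
    (∀ K : Type, ℵ₀ < #K → Principle K →
      ¬ ∃ (W : Type) (_ : TopologicalSpace W), CompactSpace W ∧ T2Space W ∧ IsUniversal W #K) := by
  constructor
  · intro L
    refine ⟨Pool.Agent.H458R4.Cohen.Fn (Set L), inferInstance, inferInstance, fun p =>
      ⟨Pool.Agent.Y577.AD.Forced.cardinalsPreserved p, fun K hK hKL => forcedPrinciple hK ?_ p⟩⟩
    rw [Cardinal.mk_set]
    exact hKL.trans_lt (Cardinal.cantor _)
  · rintro K hK hP ⟨W, tW, cW, sW, hW, hU⟩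
    obtain ⟨X, tX, cX, sX, hX, hT⟩ := Pool.Agent.Y577.UC.Top.no_embedding hK.le hP W hW.1
    exact hT (hU X hX)

end Pool.Agent.Results.MP_32ee98_gt.NoUniversalSpace
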